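import Pool.Agent.H13.MA.Stmts
import Pool.Agent.H12.SW.COLL

/-!
Module BIG: a set closed under small subsets.
-/

set_option linter.unusedVariables false
set_option linter.unusedSectionVars false
set_option synthInstance.maxSize 100000

namespace SW

section
variable {M : Type} [SetStr M] [ZF M]

/-- `f` is an injection of `b` to `U` -/
def big_Inj (U b f : M) : Prop := (∀ c, E c b → ∃ y, E y U ∧ E (opair c y) f) ∧
  (∀ c y y', E c b → E (opair c y) f → E (opair c y') f → y = y') ∧
  (∀ c c' y, E c b → E c' b → E (opair c y) f → E (opair c' y) f → c = c')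

theorem big_Inj_df : Cl3 (fun U b f : M => big_Inj U b f) := by
  unfold big_Inj; infer_instance

instance {n : ℕ} {t s u : (Fin n → M) → M} [ht : DfT t] [hs : DfT s] [hu : DfT u] :
    Df (fun v => big_Inj (t v) (s v) (u v)) := big_Inj_df.comp3 ht hs hu

/-- the least ordinal `r` with `c ⊆ V_r` -/
noncomputable def big_rho (c : M) : M :=
  the (fun r => Ord r ∧ Sub c (Vr r) ∧ ∀ s, E s r → ¬ Sub c (Vr s))

theorem big_rho_df : Fn1 (fun c : M => big_rho c) := by unfold big_rho; infer_instance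

instance {n : ℕ} {t : (Fin n → M) → M} [ht : DfT t] : DfT (fun v => big_rho (t v)) :=
  big_rho_df.comp1 ht

theorem big_rho_spec {lam c : M} (hl : Ord lam) (h : E c (Vr lam)) :
    E (big_rho c) lam ∧ Sub c (Vr (big_rho c)) := by
  obtain ⟨y, hy, hc⟩ := mem_Vr.1 h
  obtain ⟨r, h1, h2, h3, h4⟩ := ord_min (C := fun r : M => Sub c (Vr r)) inferInstance
    (hl.mem hy) hc
  have e : big_rho c = r := by
    refine the_eq ⟨h1, h2, h3⟩ ?_
    rintro s ⟨s1, s2, s3⟩
    rcases s1.tri h1 with h | h | h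
    · exact absurd s2 (h3 s h)
    · exact h
    · exact absurd h2 (s3 r h)
  rw [e]
  refine ⟨?_, h2⟩
  rcases h4 with h4 | h4
  · exact hl.trans hy h4
  · rw [h4]; exact hy

/-- a code -/
noncomputable def big_code (z x r b u : M) : M := bun (sing (opair emp x))
  (sep (prod om z) (fun t => E b r ∧ (t = opair (suc emp) x ∨
    ∃ n y, E (opair n y) u ∧ t = opair (suc (suc n)) y)))

theorem big_code_df : DfT (fun v : Fin 5 → M => big_code (v 0) (v 1) (v 2) (v 3) (v 4)) := by
  unfold big_code; infer_instance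

theorem mem_big_code {z x r b u t : M} : E t (big_code z x r b u) ↔ t = opair emp x ∨
    (E t (prod om z) ∧ E b r ∧ (t = opair (suc emp) x ∨
    ∃ n y, E (opair n y) u ∧ t = opair (suc (suc n)) y)) := by
  unfold big_code
  rw [mem_bun, mem_sing, mem_sep' inferInstance]

theorem big_code_sub {z x r b u : M} (hx : E x z) : Sub (big_code z x r b u) (prod om z) := by
  intro t ht
  rcases mem_big_code.1 ht with rfl | h
  · exact mem_prod.2 ⟨emp_mem_om, hx⟩
  · exact h.1

theorem big_code_inj {z x r b u x' r' b' u' : M} (hx : E x z) (hx' : E x' z)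
    (h : big_code z x r b u = big_code z x' r' b' u') : x = x' ∧ (E b r ↔ E b' r') ∧
      (E b r → Sub u (prod om z) → Sub u' (prod om z) → u = u') := by
  have e : x = x' := by
    have h1 : E (opair emp x) (big_code z x' r' b' u') := by
      rw [← h]; exact mem_big_code.2 (Or.inl rfl)
    rcases mem_big_code.1 h1 with h1 | ⟨_, _, h1 | ⟨n, y, _, h1⟩⟩
    · exact (opair_inj.1 h1).2
    · exact absurd (opair_inj.1 h1).1.symm (suc_ne_emp _)
    · exact absurd (opair_inj.1 h1).1.symm (suc_ne_emp _)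
  subst e
  have key : ∀ {r b u r' b' u' : M}, big_code z x r b u = big_code z x r' b' u' → E b r →
      E b' r' := by
    intro r b u r' b' u' h hb
    have h1 : E (opair (suc emp) x) (big_code z x r' b' u') := by
      rw [← h]
      exact mem_big_code.2 (Or.inr ⟨mem_prod.2 ⟨suc_mem_om emp_mem_om, hx⟩, hb, Or.inl rfl⟩)
    rcases mem_big_code.1 h1 with h1 | ⟨_, h1, _⟩
    · exact absurd (opair_inj.1 h1).1 (suc_ne_emp _)
    · exact h1
  refine ⟨rfl, ⟨key h, key h.symm⟩, fun hb hu hu' => ?_⟩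
  have key2 : ∀ {r b u r' b' u' : M}, big_code z x r b u = big_code z x r' b' u' → E b r →
      Sub u (prod om z) → Sub u u' := by
    intro r b u r' b' u' h hb hu t ht
    obtain ⟨n, y, hn, hy, rfl⟩ := mem_prod'.1 (hu t ht)
    have h1 : E (opair (suc (suc n)) y) (big_code z x r' b' u') := by
      rw [← h]
      exact mem_big_code.2 (Or.inr ⟨mem_prod.2 ⟨suc_mem_om (suc_mem_om hn), hy⟩, hb,
        Or.inr ⟨n, y, ht, rfl⟩⟩)
    rcases mem_big_code.1 h1 with h1 | ⟨_, _, h1 | ⟨m, y', hm, h1⟩⟩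
    · exact absurd (opair_inj.1 h1).1 (suc_ne_emp _)
    · exact absurd (suc_inj (opair_inj.1 h1).1) (suc_ne_emp _)
    · obtain ⟨h2, h3⟩ := opair_inj.1 h1
      rw [suc_inj (suc_inj h2), h3]
      exact hm
  exact Sub.antisymm (key2 h hb hu) (key2 h.symm (key h hb) hu')

end

theorem ma_big (hacf : ACFStmt) : BIGStmt := by
  intro M _ _ z hz
  obtain ⟨a0, ha0, hinj0⟩ := hartF (M := M) (pow (prod om z))
  obtain ⟨lam, hlam, hnot, hmin, -⟩ := ord_min
    (C := fun a : M => ¬ ∃ f : M, big_Inj (pow (prod om z)) a f) inferInstance ha0 hinj0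
  have hmin' : ∀ c, E c lam → ∃ f, big_Inj (pow (prod om z)) c f := fun c hc => by
    have := hmin c hc
    rwa [not_not] at this
  refine ⟨Vr lam, fun a haH hImg => ?_⟩
  obtain ⟨f, hf⟩ := hImg
  -- the ordinal `gam`
  let rho : M → M := fun x => big_rho (app f x)
  have rho_df : Fn1 rho := inferInstance
  let D : M := sep z (fun x => E (app f x) a)
  have hD : ∀ x, E x D ↔ E x z ∧ E (app f x) a := fun x => mem_sep' inferInstance
  have hrho : ∀ x, E x D → E (rho x) lam ∧ Sub (app f x) (Vr (rho x)) := fun x hx =>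
    big_rho_spec hlam (haH _ ((hD x).1 hx).2)
  let S : M := img D (fun x => suc (rho x))
  have hS : ∀ y, E y S ↔ ∃ x, E x D ∧ y = suc (rho x) := fun y => mem_img' inferInstance
  have hSO : ∀ y, E y S → Ord y := by
    intro y hy
    obtain ⟨x, hx, rfl⟩ := (hS y).1 hy
    exact Ord_suc (hlam.mem (hrho x hx).1)
  have hgo : Ord (sUn S) := Ord_sUn hSO
  have hgs : Sub (sUn S) lam := by
    intro b hb
    rw [mem_sUn] at hb
    obtain ⟨y, hy, hb⟩ := hb
    obtain ⟨x, hx, rfl⟩ := (hS y).1 hy
    exact (hlam.mem (hrho x hx).1).suc_sub hlam (hrho x hx).1 b hb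
  rcases (hgo.sub_iff hlam).1 hgs with hg | hg
  · -- the good case
    refine mem_Vr.2 ⟨_, hg, fun c hc => ?_⟩
    obtain ⟨x, hx, rfl⟩ := hf c hc
    have hx' : E x D := (hD x).2 ⟨hx, hc⟩
    refine mem_Vr.2 ⟨rho x, ?_, (hrho x hx').2⟩
    rw [mem_sUn]
    exact ⟨_, (hS _).2 ⟨x, hx', rfl⟩, mem_suc.2 (Or.inr rfl)⟩
  · exfalso
    obtain ⟨g1, hg1⟩ := hacf M (pow (prod lam (pow (prod om z))))
    obtain ⟨g2, hg2⟩ := hacf M z
    let U : M := pow (prod om z)
    let J : M → M := fun r => app g1 (sep (pow (prod lam U)) (fun f : M => big_Inj U r f))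
    have J_df : Fn1 J := inferInstance
    have hJ : ∀ r, E r lam → big_Inj U r (J r) := by
      intro r hr
      have h1 : E (J r) (sep (pow (prod lam U)) (fun f : M => big_Inj U r f)) := by
        refine hg1 _ (fun t ht => ((mem_sep' inferInstance).1 ht).1) ?_
        obtain ⟨k, k1, k2, k3⟩ := hmin' r hr
        refine ⟨inter k (prod lam U), (mem_sep' inferInstance).2 ⟨mem_pow.2 fun t ht =>
          (mem_inter.1 ht).2, fun c hc => ?_, fun c y y' hc h1 h2 => ?_,
          fun c c' y hc hc' h1 h2 => ?_⟩⟩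
        · obtain ⟨y, hy, hcy⟩ := k1 c hc
          exact ⟨y, hy, mem_inter.2 ⟨hcy, mem_prod.2 ⟨hlam.trans hr hc, hy⟩⟩⟩
        · exact k2 c y y' hc (mem_inter.1 h1).1 (mem_inter.1 h2).1
        · exact k3 c c' y hc hc' (mem_inter.1 h1).1 (mem_inter.1 h2).1
      exact ((mem_sep' inferInstance).1 h1).2
    have hJapp : ∀ r b, E r lam → E b r → E (app (J r) b) U ∧ E (opair b (app (J r) b)) (J r) := by
      intro r b hr hb
      obtain ⟨k1, k2, k3⟩ := hJ r hr
      obtain ⟨y, hy, hby⟩ := k1 b hb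
      have : app (J r) b = y := the_eq hby fun w hw => k2 b w y hb hw hby
      rw [this]
      exact ⟨hy, hby⟩
    let X : M → M := fun b => app g2 (sep D (fun x => E b (suc (rho x))))
    have X_df : Fn1 X := inferInstance
    have hX : ∀ b, E b lam → E (X b) D ∧ E b (suc (rho (X b))) := by
      intro b hb
      have h1 : E (X b) (sep D (fun x => E b (suc (rho x)))) := by
        refine hg2 _ (fun t ht => ((hD t).1 ((mem_sep' inferInstance).1 ht).1).1) ?_
        rw [← hg, mem_sUn] at hb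
        obtain ⟨y, hy, hb⟩ := hb
        obtain ⟨x, hx, rfl⟩ := (hS y).1 hy
        exact ⟨x, (mem_sep' inferInstance).2 ⟨hx, hb⟩⟩
      exact (mem_sep' inferInstance).1 h1
    have _ := big_code_df (M := M)
    let K : M → M := fun b => big_code z (X b) (rho (X b)) b (app (J (rho (X b))) b)
    have K_df : Fn1 K := by
      have h5 : DfT (fun v : Fin 1 → M => big_code z (X (v 0)) (rho (X (v 0))) (v 0)
          (app (J (rho (X (v 0)))) (v 0))) := by
        unfold big_code
        infer_instance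
      exact h5
    refine hnot ⟨gr lam K, fun b hb => ?_, fun b y y' hb h1 h2 => ?_, fun b b' y hb hb' h1 h2 => ?_⟩
    · refine ⟨K b, mem_pow.2 (big_code_sub ((hD _).1 (hX b hb).1).1),
        (opair_mem_gr K_df).2 ⟨hb, rfl⟩⟩
    · rw [((opair_mem_gr K_df).1 h1).2, ((opair_mem_gr K_df).1 h2).2]
    · have e : K b = K b' := by
        rw [← ((opair_mem_gr K_df).1 h1).2, ← ((opair_mem_gr K_df).1 h2).2]
      obtain ⟨e1, e2, e3⟩ := big_code_inj ((hD _).1 (hX b hb).1).1 ((hD _).1 (hX b' hb').1).1 e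
      have m1 := (hX b hb).2
      have m2 := (hX b' hb').2
      rw [mem_suc] at m1 m2
      rw [← e1] at m2 e2 e3
      have hr := (hrho _ (hX b hb).1).1
      rcases m1 with m1 | m1
      · have m2' : E b' (rho (X b)) := e2.1 m1
        obtain ⟨p1, p2⟩ := hJapp _ b hr m1
        obtain ⟨q1, q2⟩ := hJapp _ b' hr m2'
        have e4 := e3 m1 (mem_pow.1 p1) (mem_pow.1 q1)
        rw [← e4] at q2
        exact (hJ _ hr).2.2 b b' _ m1 m2' p2 q2
      · rcases m2 with m2 | m2
        · have h9 : E b (rho (X b)) := e2.2 m2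
          rw [← m1] at h9
          exact absurd h9 (not_mem_self b)
        · rw [m1]; exact m2.symm

end SW
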