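import Pool.Agent.H13.MA.Stmts

/-!
Module FRE: the general principle for free sets from the case where finite free sets can be
enlarged.
-/

set_option linter.unusedVariables false
set_option linter.unusedSectionVars false
set_option synthInstance.maxSize 100000

namespace SW

section
variable {M : Type} [SetStr M]

theorem fre_Fr_mono {B f g : M} (h : Fr B g) (hs : Sub f g) : Fr B f :=
  fun x y hx hy => h x y (hs x hx) (hs y hy)

end

section
variable {M : Type} [SetStr M] [ZF M]

/-- all finite free extensions of `q` inside `w` avoid the elements above `k` -/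
def fre_Bd (w B q k : M) : Prop := E k w ∧ ∀ r, Fnt r → Sub r w → Fr B r → Sub q r →
  ∀ b, E b r → ¬ E k b

theorem fre_Bd_df : Df (fun v : Fin 4 → M => fre_Bd (v 0) (v 1) (v 2) (v 3)) := by
  unfold fre_Bd; infer_instance

instance {n : ℕ} {t s u x : (Fin n → M) → M} [ht : DfT t] [hs : DfT s] [hu : DfT u]
    [hx : DfT x] : Df (fun v => fre_Bd (t v) (s v) (u v) (x v)) :=
  fre_Bd_df.comp4 (R := fun a b c d => fre_Bd a b c d) ht hs hu hx

/-- the least bound -/
noncomputable def fre_xi (w B q : M) : M := the (fun k => fre_Bd w B q k ∧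
  ∀ j, E j k → ¬ fre_Bd w B q j)

theorem fre_xi_df : DfT (fun v : Fin 3 → M => fre_xi (v 0) (v 1) (v 2)) := by
  unfold fre_xi; infer_instance

instance {n : ℕ} {t s u : (Fin n → M) → M} [ht : DfT t] [hs : DfT s] [hu : DfT u] :
    DfT (fun v => fre_xi (t v) (s v) (u v)) := fre_xi_df.comp3 (f := fun a b c => fre_xi a b c)
  ht hs hu

theorem fre_xi_spec {w B q k : M} (hw : Ord w) (h : fre_Bd w B q k) :
    fre_Bd w B q (fre_xi w B q) := by
  obtain ⟨m, h1, h2⟩ := mem_min (C := fun k : M => fre_Bd w B q k) inferInstance ⟨k, h⟩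
  have : fre_xi w B q = m := by
    refine the_eq ⟨h1, h2⟩ ?_
    rintro z ⟨z1, z2⟩
    rcases (hw.mem z1.1).tri (hw.mem h1.1) with h | h | h
    · exact absurd z1 (h2 z h)
    · exact h
    · exact absurd h1 (z2 m h)
  rw [this]
  exact h1

/-- candidates for the extensions of `{a}` -/
noncomputable def fre_Q (w B a : M) : M := sep (pow w) (fun q => Fnt q ∧ Sub (sing a) q ∧
  Fr B q ∧ ∃ k, fre_Bd w B q k)

theorem fre_Q_df : DfT (fun v : Fin 3 → M => fre_Q (v 0) (v 1) (v 2)) := by
  unfold fre_Q; infer_instance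

instance {n : ℕ} {t s u : (Fin n → M) → M} [ht : DfT t] [hs : DfT s] [hu : DfT u] :
    DfT (fun v => fre_Q (t v) (s v) (u v)) := fre_Q_df.comp3 (f := fun a b c => fre_Q a b c)
  ht hs hu

theorem mem_fre_Q {w B a q : M} : E q (fre_Q w B a) ↔ Sub q w ∧ Fnt q ∧ Sub (sing a) q ∧
    Fr B q ∧ ∃ k, fre_Bd w B q k := by
  unfold fre_Q
  rw [mem_sep' inferInstance, mem_pow]

/-- the derived relation -/
noncomputable def fre_B (w B p : M) : M := sep (prod w w) (fun t => ∃ x y, t = opair x y ∧
  Fr B (bun p (upair x y)))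

theorem fre_B_free {w B p f : M} (hp : Fr B p) (hf : Sub f w) :
    Fr (fre_B w B p) f ↔ Fr B (bun p f) := by
  have hm : ∀ x y, E (opair x y) (fre_B w B p) ↔ (E x w ∧ E y w) ∧
      Fr B (bun p (upair x y)) := by
    intro x y
    unfold fre_B
    rw [mem_sep' inferInstance, mem_prod]
    refine and_congr_right fun _ => ⟨?_, fun h => ⟨x, y, rfl, h⟩⟩
    rintro ⟨x', y', h, h'⟩
    obtain ⟨rfl, rfl⟩ := opair_inj.1 h
    exact h'
  constructor
  · intro h x y hx hy
    rw [mem_bun] at hx hy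
    have key : ∀ x y, E x f → E y f → Fr B (bun p (upair x y)) := fun x y hx hy =>
      ((hm x y).1 (pairIn_iff.1 (h x y hx hy))).2
    rcases hx with hx | hx
    · rcases hy with hy | hy
      · exact hp x y hx hy
      · exact key y y hy hy x y (mem_bun.2 (Or.inl hx)) (mem_bun.2 (Or.inr (mem_upair.2
          (Or.inl rfl))))
    · rcases hy with hy | hy
      · exact key x x hx hx x y (mem_bun.2 (Or.inr (mem_upair.2 (Or.inl rfl))))
          (mem_bun.2 (Or.inl hy))
      · exact key x y hx hy x y (mem_bun.2 (Or.inr (mem_upair.2 (Or.inl rfl))))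
          (mem_bun.2 (Or.inr (mem_upair.2 (Or.inr rfl))))
  · intro h x y hx hy
    rw [pairIn_iff, hm]
    refine ⟨⟨hf x hx, hf y hy⟩, fre_Fr_mono h fun z hz => ?_⟩
    rw [mem_bun, mem_upair] at hz
    rw [mem_bun]
    rcases hz with hz | rfl | rfl
    · exact Or.inl hz
    · exact Or.inr hx
    · exact Or.inr hy

end

theorem ma_fre (hacf : ACFStmt) (hseq : SEQStmt) (hwf : WFStmt) (hcbt : CBTStmt) : FREStmt := by
  intro M _ _ w hw hmain B hB
  have hWF := hwf M w hw
  have hCb := hcbt M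
  by_contra hcon
  push Not at hcon
  obtain ⟨hncc, huf⟩ := hcon
  -- the condition `p`
  have hp : ∃ p, Fnt p ∧ Sub p w ∧ Fr B p ∧ ∀ q, Fnt q → Sub q w → Fr B q → Sub p q →
      ∀ k, ¬ fre_Bd w B q k := by
    by_contra hno
    push Not at hno
    obtain ⟨g, hg⟩ := hacf M (pow w)
    let D : M := sep w (fun x => E (opair x x) B)
    have hD : ∀ x, E x D ↔ E x w ∧ E (opair x x) B := fun x => mem_sep' inferInstance
    let Q : M → M := fun a => app g (fre_Q w B a)
    have Q_df : Fn1 Q := inferInstance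
    let xi : M → M := fun a => fre_xi w B (Q a)
    have xi_df : Fn1 xi := inferInstance
    have hQ : ∀ a, E a D → E (Q a) (fre_Q w B a) := by
      intro a ha
      refine hg _ (fun q hq => mem_pow.2 (mem_fre_Q.1 hq).1) ?_
      have hs : Sub (sing a) w := by
        intro z hz
        rw [mem_sing] at hz
        rw [hz]
        exact ((hD a).1 ha).1
      have hsf : Fnt (sing a) := by
        have : sing a = ins a emp := ext fun z => by simp
        rw [this]
        exact finF.ins finF.emp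
      obtain ⟨q, h1, h2, h3, h4, k, h5⟩ := hno (sing a) hsf hs (by
        intro x y hx hy
        rw [mem_sing] at hx hy
        rw [hx, hy, pairIn_iff]
        exact ((hD a).1 ha).2)
      exact ⟨q, mem_fre_Q.2 ⟨h2, h1, h4, h3, k, h5⟩⟩
    have hxi : ∀ a, E a D → fre_Bd w B (Q a) (xi a) := by
      intro a ha
      obtain ⟨-, -, -, -, k, hk⟩ := mem_fre_Q.1 (hQ a ha)
      exact fre_xi_spec hw.1 hk
    obtain ⟨V, hV⟩ := hseq M w D (fun c b => ∀ a, E a c → E (xi a) b) hw inferInstance (by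
      intro c hc hcc
      obtain ⟨b, hb, hb'⟩ := hWF.bdd (s := img c xi) (by
        intro z hz
        obtain ⟨a, ha, rfl⟩ := (mem_img' xi_df).1 hz
        exact (hxi a (hc a ha)).1) (hCb.img xi xi_df hcc)
      obtain ⟨d, hd, hbd⟩ := hWF.unb (s := D) (fun x hx => ((hD x).1 hx).1) hB b hb
      refine ⟨d, hd, fun a ha => ?_⟩
      exact (hw.1.mem ((hD d).1 hd).1).trans hbd (hb' _ ((mem_img' xi_df).2 ⟨a, ha, rfl⟩)))
    have hV2 : ∀ a b, E b w → E a b → E (xi (app V a)) (app V b) := by
      intro a b hb hab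
      exact (hV b hb).2 _ ((mem_img' inferInstance).2 ⟨a, hab, rfl⟩)
    have hfn : Fn1 (fun a : M => Q (app V a)) := inferInstance
    have key : ∀ a b, E a w → E b w → E a b → ¬ Fr B (bun (Q (app V a)) (Q (app V b))) := by
      intro a b ha hb hab hfr
      obtain ⟨a1, a2, a3, a4, -⟩ := mem_fre_Q.1 (hQ _ (hV a ha).1)
      obtain ⟨b1, b2, b3, b4, -⟩ := mem_fre_Q.1 (hQ _ (hV b hb).1)
      refine (hxi _ (hV a ha).1).2 _ (finF.bun a2 b2) ?_ hfr (fun z hz => mem_bun.2 (Or.inl hz))
        (app V b) (mem_bun.2 (Or.inr (b3 _ (mem_sing.2 rfl)))) (hV2 a b hb hab)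
      intro z hz
      rcases mem_bun.1 hz with hz | hz
      · exact a1 z hz
      · exact b1 z hz
    have hsym : ∀ x y : M, bun x y = bun y x := fun x y => ext fun z => by
      rw [mem_bun, mem_bun, or_comm]
    have hself : ∀ x : M, bun x x = x := fun x => ext fun z => by
      rw [mem_bun, or_self]
    have key2 : ∀ a b, E a w → E b w → a ≠ b →
        ¬ Fr B (bun (Q (app V a)) (Q (app V b))) := by
      intro a b ha hb hab
      rcases (hw.1.mem ha).tri (hw.1.mem hb) with h | h | h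
      · exact key a b ha hb h
      · exact absurd h hab
      · rw [hsym]
        exact key b a hb ha h
    refine hncc ⟨img w (fun a => Q (app V a)), ?_, ?_, ?_⟩
    · intro hc
      refine hw.2.1 (hCb.inj (fun a => Q (app V a)) hfn hc (fun z hz =>
        (mem_img' hfn).2 ⟨z, hz, rfl⟩) ?_)
      intro z z' hz hz' h
      by_contra hne
      refine key2 z z' hz hz' hne ?_
      have h' : Q (app V z) = Q (app V z') := h
      rw [← h', hself]
      exact (mem_fre_Q.1 (hQ _ (hV z hz).1)).2.2.2.1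
    · intro f hf
      obtain ⟨a, ha, rfl⟩ := (mem_img' hfn).1 hf
      obtain ⟨a1, a2, a3, a4, -⟩ := mem_fre_Q.1 (hQ _ (hV a ha).1)
      exact ⟨a2, a1, a4⟩
    · intro f f' hf hf' hne
      obtain ⟨a, ha, rfl⟩ := (mem_img' hfn).1 hf
      obtain ⟨b, hb, rfl⟩ := (mem_img' hfn).1 hf'
      refine key2 a b ha hb ?_
      rintro rfl
      exact hne rfl
  obtain ⟨p, hpf, hpw, hpB, hp⟩ := hp
  have hext : ∀ q, Fnt q → Sub q w → Fr B q → Sub p q → ∀ k, E k w →
      ∃ r, Fnt r ∧ Sub r w ∧ Fr B r ∧ Sub q r ∧ ∃ b, E b r ∧ E k b := by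
    intro q h1 h2 h3 h4 k hk
    by_contra hno
    push Not at hno
    exact hp q h1 h2 h3 h4 k ⟨hk, hno⟩
  have hpsub : ∀ f, Sub f w → Sub (bun p f) w := by
    intro f hf z hz
    rcases mem_bun.1 hz with hz | hz
    · exact hpw z hz
    · exact hf z hz
  have hEE : EE w (fre_B w B p) := by
    intro f hf1 hf2 hf3 b hb
    have hfr := (fre_B_free hpB hf2).1 hf3
    obtain ⟨r, r1, r2, r3, r4, x, hx, hbx⟩ := hext (bun p f) (finF.bun hpf hf1) (hpsub f hf2) hfr
      (fun z hz => mem_bun.2 (Or.inl hz)) b hb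
    have hxw := r2 x hx
    refine ⟨x, hxw, hbx, (fre_B_free hpB ?_).2 (fre_Fr_mono r3 ?_)⟩
    · intro z hz
      rcases mem_ins.1 hz with hz | rfl
      · exact hf2 z hz
      · exact hxw
    · intro z hz
      rcases mem_bun.1 hz with hz | hz
      · exact r4 z (mem_bun.2 (Or.inl hz))
      · rcases mem_ins.1 hz with hz | rfl
        · exact r4 z (mem_bun.2 (Or.inr hz))
        · exact hx
  rcases hmain _ hEE with ⟨A, hA1, hA2, hA3⟩ | ⟨A, hA1, hA2, hA3⟩
  · have hfn : Fn1 (fun f : M => bun p f) := inferInstance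
    have h0 : ∀ f f', E f A → E f' A → f ≠ f' → ¬ Fr B (bun (bun p f) (bun p f')) := by
      intro f f' hf hf' hne h
      refine hA3 f f' hf hf' hne ((fre_B_free hpB ?_).2 (fre_Fr_mono h ?_))
      · intro z hz
        rcases mem_bun.1 hz with hz | hz
        · exact (hA2 f hf).2.1 z hz
        · exact (hA2 f' hf').2.1 z hz
      · intro z hz
        rw [mem_bun, mem_bun] at hz
        rw [mem_bun, mem_bun, mem_bun]
        tauto
    have h1 : ∀ f f', E f A → E f' A → bun p f = bun p f' → f = f' := by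
      intro f f' hf hf' h
      by_contra hne
      refine h0 f f' hf hf' hne ?_
      rw [← h]
      refine fre_Fr_mono ((fre_B_free hpB (hA2 f hf).2.1).1 (hA2 f hf).2.2) fun z hz => ?_
      rcases mem_bun.1 hz with hz | hz <;> exact hz
    refine hncc ⟨img A (fun f => bun p f), ?_, ?_, ?_⟩
    · intro hc
      exact hA1 (hCb.inj (fun f => bun p f) hfn hc (fun z hz => (mem_img' hfn).2 ⟨z, hz, rfl⟩) h1)
    · intro f hf
      obtain ⟨a, ha, rfl⟩ := (mem_img' hfn).1 hf
      exact ⟨finF.bun hpf (hA2 a ha).1, hpsub _ (hA2 a ha).2.1,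
        (fre_B_free hpB (hA2 a ha).2.1).1 (hA2 a ha).2.2⟩
    · intro f f' hf hf' hne
      obtain ⟨a, ha, rfl⟩ := (mem_img' hfn).1 hf
      obtain ⟨b, hb, rfl⟩ := (mem_img' hfn).1 hf'
      refine h0 a b ha hb ?_
      rintro rfl
      exact hne rfl
  · exact huf ⟨A, hA1, hA2, fre_Fr_mono ((fre_B_free hpB hA1).1 hA3)
      fun z hz => mem_bun.2 (Or.inr hz)⟩

end SW
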