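import Pool.Agent.H13.MA.Stmts

/-!
Module NB3: the principle for the extension, for relations such that finite free sets can be
enlarged.
-/

set_option linter.unusedVariables false
set_option linter.unusedSectionVars false
set_option synthInstance.maxSize 100000

namespace SW

theorem ma_nb3 (hfbf : FBFStmt) (hnic : NICStmt) (hnbd : NBDStmt) (hnb1 : NB1Stmt)
    (hnb2 : NB2Stmt) : NB3Stmt := by
  intro M _ _ _ w H I hMx G hG _ B hEE
  obtain ⟨t, rfl⟩ : ∃ t, mk (PF w I) G t = B := Quot.exists_rep B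
  obtain ⟨hF1, hF2, hF3⟩ := hfbf M w I t
  have hT := traF hG
  have hE := embF hG
  have hQ : QEx (Ext (PF w I) G) (fun i => mk (PF w I) G
      ((![chk (PF w I) (Fs w), chk (PF w I) w, t] : Fin 3 → M) i)) := by
    show ExtF (emb (PF w I) G (Fs w)) (emb (PF w I) G w) (mk (PF w I) G t)
    intro f hf hfr b hb
    obtain ⟨f0, hf0, rfl⟩ := hE.trans _ _ hf
    have hf0 := (mem_sep' (inferInstance : Cl (fun f : M => Fnt f))).1 hf0
    obtain ⟨x, hx, hbx, hfr'⟩ := hEE _ (hT.fnt _ hf0.2) ((hT.sub _ _).2 (mem_pow.1 hf0.1)) hfr b hb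
    refine ⟨x, hx, hbx, hfr' x x (mem_ins.2 (Or.inr rfl)) (mem_ins.2 (Or.inr rfl)),
      fun y hy => ⟨hfr' x y (mem_ins.2 (Or.inr rfl)) (mem_ins.2 (Or.inl hy)),
      hfr' y x (mem_ins.2 (Or.inl hy)) (mem_ins.2 (Or.inr rfl))⟩⟩
  obtain ⟨p0, hp0, hp0'⟩ := ((semF (PF w I)).truth QEx G hG _).1 hQ
  have hC : Cl (fun q : M => ∃ p e : M, Sub p0 p ∧ E p (PP w I) ∧ Sub p q ∧
      Nice w I (DB w I t p) e ∧ (E e I ∨ (¬ E e I ∧ ∃ V : M, Bad w I e q V))) := by
    have hB : Df (fun v : Fin 5 → M => Bad (v 0) (v 1) (v 2) (v 3) (v 4)) := Bad_df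
    unfold Nice DB Bad
    infer_instance
  obtain ⟨q, hq, hq0, p, e, hp1, hp2, hp3, hN, hcase⟩ := (genF hG).meetB _ hC p0 hp0 (by
    intro p hp hp'
    have hD : Cl3 (DB w I t p) := by
      unfold DB
      infer_instance
    obtain ⟨e, he⟩ := hnic M w I (DB w I t p) hMx.w1 hMx.ccc hD
    by_cases heI : E e I
    · exact ⟨p, hp, Sub.refl p, p, e, hp', hp, Sub.refl p, he, Or.inl heI⟩
    · obtain ⟨q, V, hpq, hV⟩ := hnbd M w H I p e (FB w I t) hMx hp hF1
        (fun x y q q' h1 h2 h3 => hF2 x y q q' h1 h2 h3) he heI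
      exact ⟨q, hV.1, hpq, p, e, hp', hp, hpq, he, Or.inr ⟨heI, V, hV⟩⟩)
  have hGp : G p := hG.up q p hq hp2 hp3
  rcases hcase with heI | ⟨heI, V, hV⟩
  · right
    refine hnb2 M w H I hMx G hG t p e hGp ?_ hN heI
    intro G' hG' hG'p
    exact hp0' G' hG' (hG'.up p p0 hG'p (hG.sub p0 hp0) hp1)
  · left
    exact hnb1 M w H I hMx G hG t p e q V hGp hN heI hp3 hq hV

end SW
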