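import Pool.Agent.H13.MA.Stmts

/-!
Module NBD: a nice name outside a maximal system has a bad sequence.
-/

set_option linter.unusedVariables false
set_option linter.unusedSectionVars false
set_option synthInstance.maxSize 100000

namespace SW

section
variable {M : Type} [SetStr M] [ZF M]

/-- the second coordinate -/
noncomputable def nbd_snd (t : M) : M := the (fun x => ∃ y, t = opair y x)

theorem nbd_snd_df : Fn1 (fun t : M => nbd_snd t) := by unfold nbd_snd; infer_instance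

instance {n : ℕ} {t : (Fin n → M) → M} [ht : DfT t] : DfT (fun v => nbd_snd (t v)) :=
  nbd_snd_df.comp1 ht

theorem nbd_snd_opair (a b : M) : nbd_snd (opair a b) = b :=
  the_eq ⟨a, rfl⟩ (by
    rintro z ⟨y, h⟩
    exact (opair_inj.1 h).2.symm)

theorem nbd_fnt {w e s : M} (hs : Fnt s) : Fnt (sep w (fun x => E (opair e x) s)) := by
  refine finF.sub (finF.img (fun t : M => nbd_snd t) nbd_snd_df hs) fun x hx => ?_
  rw [mem_sep' inferInstance] at hx
  rw [mem_img' inferInstance]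
  exact ⟨_, hx.2, (nbd_snd_opair _ _).symm⟩

theorem nbd_Cb_emp : Cb (emp : M) :=
  ⟨emp, fun y hy => absurd hy (not_mem_emp _), fun y y' n hy => absurd hy (not_mem_emp _)⟩

theorem nbd_emp_mem {w : M} (hw : IsW w) : E emp w := by
  refine emp_mem_ord hw.1 ?_
  rintro rfl
  exact hw.2.1 nbd_Cb_emp

end

theorem ma_nbd (hbgf : BGFStmt) (hinj : INJWStmt) (hccp : CCPStmt) (hrsa : RSAStmt) :
    NBDStmt := by
  intro M _ _ w H I p e B hMx hp hB hmono hN heI
  have hRS := hrsa M w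
  obtain ⟨hN1, hN2, hN3⟩ := hN
  have hsysJ : Sys w (ins e I) := by
    have hsub : Sub (prod I w) (prod (ins e I) w) := by
      intro t ht
      obtain ⟨a, b, ha, hb, rfl⟩ := mem_prod'.1 ht
      exact mem_prod.2 ⟨mem_ins.2 (Or.inl ha), hb⟩
    intro e' he' t ht
    rcases mem_ins.1 he' with he' | rfl
    · obtain ⟨x, y, q, hx, hy, hq, hq', rfl⟩ := hMx.sys e' he' t ht
      exact ⟨x, y, q, hx, hy, hq, hq'.trans hsub, rfl⟩
    · obtain ⟨x, y, q, hx, hy, hq, -, rfl⟩ := hN1 t ht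
      have hq := mem_PP.1 hq
      exact ⟨x, y, q, hx, hy, hq.1, hq.2.1.trans hsub, rfl⟩
  have heH : E e H := by
    refine (hbgf M w H hMx.w1 hMx.clo).name hMx.sub (fun t ht => ?_) hN3
    obtain ⟨x, y, q, hx, hy, hq, -, rfl⟩ := hN1 t ht
    exact ⟨x, y, q, hx, hy, hq, rfl⟩
  have hnccc : ¬ CCC (PP w (ins e I)) := by
    intro h
    have h1 : ins e I = I := by
      refine hMx.max _ (fun t ht => ?_) hsysJ h (fun t ht => mem_ins.2 (Or.inl ht))
      rcases mem_ins.1 ht with ht | rfl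
      · exact hMx.sub t ht
      · exact heH
    apply heI
    rw [← h1]
    exact mem_ins.2 (Or.inr rfl)
  obtain ⟨A, hA, hAc⟩ : ∃ A, Anti (PP w (ins e I)) A ∧ ¬ Cb A := by
    by_contra hcon
    push Not at hcon
    exact hnccc hcon
  obtain ⟨V, hV1, hV2⟩ := hinj M w A hMx.w1 hAc
  have hV3 : ∀ a, E a w → E (app V a) (PP w (ins e I)) := fun a ha => hA.1 _ (hV1 a ha)
  have hV4 : ∀ a b, E a w → E b w → a ≠ b → ¬ Cpt (PP w (ins e I)) (app V a) (app V b) :=
    fun a b ha hb hab => hA.2 _ _ (hV1 a ha) (hV1 b hb) (hV2 a b ha hb hab)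
  have hrs : ∀ a, E a w → E (rs w I (app V a)) (PP w I) := fun a ha =>
    hRS.rs hMx.sys (hV3 a ha)
  have rs_fn : Fn1 (fun a : M => rs w I (app V a)) := inferInstance
  obtain ⟨q0, hq0, hq0'⟩ := hccp M w (PP w I) (gr w (fun a => rs w I (app V a))) hMx.w1 hMx.ccc
    (fun a ha => by rw [app_gr rs_fn ha]; exact hrs a ha)
  have key : ∀ q, E q (PP w I) → Sub q0 q → ∀ b, E b w → ∃ a, E a w ∧ E b a ∧
      Cpt (PP w I) q (rs w I (app V a)) := by
    intro q hq hqq b hb
    obtain ⟨a, ha, hba, hc⟩ := hq0' q hq hqq b hb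
    rw [app_gr rs_fn ha] at hc
    exact ⟨a, ha, hba, hc⟩
  have hc : Cpt (PP w I) q0 p := by
    by_contra hnc
    obtain ⟨a, ha, -, r1, hr1, hr1', hr1''⟩ := key q0 hq0 (Sub.refl _) emp (nbd_emp_mem hMx.w1)
    obtain ⟨b, hb, hab, r2, hr2, hr2', hr2''⟩ := key r1 hr1 hr1' a ha
    have hne : a ≠ b := by
      rintro rfl
      exact not_mem_self _ hab
    let F : M := bun (sep w (fun x => E (opair e x) (app V a)))
      (sep w (fun x => E (opair e x) (app V b)))
    have hFf : Fnt F := finF.bun (nbd_fnt (mem_PP.1 (hV3 a ha)).1)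
      (nbd_fnt (mem_PP.1 (hV3 b hb)).1)
    have hFw : Sub F w := by
      intro x hx
      rcases mem_bun.1 hx with hx | hx
      · exact ((mem_sep' inferInstance).1 hx).1
      · exact ((mem_sep' inferInstance).1 hx).1
    have step : ∀ S, Fnt S → (Sub S (prod F F) → ∃ r, E r (PP w I) ∧ Sub r2 r ∧
        ∀ x y, E (opair x y) S → ∃ q, Sub q r ∧ Tr e x y q) := by
      refine finF.ind (fun S : M => Sub S (prod F F) → ∃ r : M, E r (PP w I) ∧ Sub r2 r ∧
        ∀ x y : M, E (opair x y) S → ∃ q : M, Sub q r ∧ Tr e x y q) inferInstance ?_ ?_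
      · intro _
        exact ⟨r2, hr2, Sub.refl _, fun x y h => absurd h (not_mem_emp _)⟩
      · intro S c _ _ ih hS
        obtain ⟨r, hr, hr', hr''⟩ := ih (fun t ht => hS t (mem_ins.2 (Or.inl ht)))
        obtain ⟨x, y, hx, hy, rfl⟩ := mem_prod'.1 (hS c (mem_ins.2 (Or.inr rfl)))
        have hD : ¬ Cpt (PP w I) r p := by
          rintro ⟨s, hs, h1, h2⟩
          exact hnc ⟨s, hs, ((hr1'.trans hr2').trans hr').trans h1, h2⟩
        obtain ⟨q', hq', s, hs, h1, h2⟩ := hN2 x y r (hFw x hx) (hFw y hy) hr (Or.inl hD)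
        refine ⟨s, hs, hr'.trans h2, fun x' y' h => ?_⟩
        rcases mem_ins.1 h with h | h
        · obtain ⟨q, hq1, hq2⟩ := hr'' x' y' h
          exact ⟨q, hq1.trans h2, hq2⟩
        · obtain ⟨rfl, rfl⟩ := opair_inj.1 h
          exact ⟨q', h1, hq'⟩
    obtain ⟨r, hr, hr', hr''⟩ := step (prod F F) (finF.prod hFf hFf) (Sub.refl _)
    have hadd := hRS.add hMx.sys heI hr hFf hFw (fun x y hx hy => hr'' x y (mem_prod.2 ⟨hx, hy⟩))
    have hsub : ∀ c, E c w → Sub (rs w I (app V c)) r →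
        Sub (sep w (fun x => E (opair e x) (app V c))) F →
        Sub (app V c) (bun r (prod (sing e) F)) := by
      intro c hc h1 h2 t ht
      obtain ⟨e', x, he', hx, rfl⟩ := mem_prod'.1 ((mem_PP.1 (hV3 c hc)).2.1 t ht)
      rw [mem_bun]
      rcases mem_ins.1 he' with he' | rfl
      · exact Or.inl (h1 _ (mem_rs.2 ⟨ht, mem_prod.2 ⟨he', hx⟩⟩))
      · exact Or.inr (mem_prod.2 ⟨mem_sing.2 rfl, h2 _ ((mem_sep' inferInstance).2 ⟨hx, ht⟩)⟩)
    refine hV4 a b ha hb hne ⟨_, hadd, ?_, ?_⟩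
    · exact hsub a ha ((hr1''.trans hr2').trans hr') (fun t ht => mem_bun.2 (Or.inl ht))
    · exact hsub b hb (hr2''.trans hr') (fun t ht => mem_bun.2 (Or.inr ht))
  obtain ⟨q, hq, hq1, hq2⟩ := hc
  refine ⟨q, V, hq2, hq, hV3, hV4, fun r hr hqr b hb => key r hr (hq1.trans hqr) b hb⟩

end SW
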